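import Mathlib

/-!
# `C_k(ω*, ω*)` is not Čech-complete (MP_7e6923_gt, Q2)
-/

namespace Pool.Agent.Results.MP_7e6923_gt.NotCechComplete

open Set Topology Filter

/-- `ω* = βω ∖ ω`: the ultrafilters on `ℕ` which are not principal, as a subspace of
`βω = Ultrafilter ℕ`. -/
abbrev OmegaStar : Type := {u : Ultrafilter ℕ // u ∉ range (pure : ℕ → Ultrafilter ℕ)}

/-- `Z` is Čech-complete: `Z` is Tychonoff and a `G_δ` subset of its Stone–Čech
compactification. -/
def CechComplete (Z : Type) [TopologicalSpace Z] : Prop :=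
  T35Space Z ∧ IsGδ (range (stoneCechUnit : Z → StoneCech Z))

theorem isOpen_range_pure : IsOpen (range (pure : ℕ → Ultrafilter ℕ)) := by
  have h : range (pure : ℕ → Ultrafilter ℕ) = ⋃ n : ℕ, {u : Ultrafilter ℕ | {n} ∈ u} := by
    ext u
    simp only [mem_range, mem_iUnion, Set.mem_ofPred_eq]
    constructor
    · rintro ⟨n, rfl⟩
      exact ⟨n, Ultrafilter.mem_pure.2 rfl⟩
    · rintro ⟨n, hn⟩
      obtain ⟨m, hm, hu⟩ := Ultrafilter.eq_pure_of_finite_mem (finite_singleton n) hn
      exact ⟨m, hu.symm⟩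
  rw [h]
  exact isOpen_iUnion fun n => ultrafilter_isOpen_basic _

instance : CompactSpace OmegaStar :=
  isCompact_iff_compactSpace.1 isOpen_range_pure.isClosed_compl.isCompact

theorem le_cofinite (u : OmegaStar) : (u.1 : Filter ℕ) ≤ cofinite := by
  rcases u.1.le_cofinite_or_eq_pure with h | ⟨n, hn⟩
  · exact h
  · exact absurd ⟨n, hn.symm⟩ u.2

/-- the clopen set `s*` -/
def star (s : Set ℕ) : Set OmegaStar := {u | s ∈ u.1}

theorem isClopen_star (s : Set ℕ) : IsClopen (star s) :=
  ⟨(ultrafilter_isClosed_basic s).preimage continuous_subtype_val,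
    (ultrafilter_isOpen_basic s).preimage continuous_subtype_val⟩

theorem exists_star_subset (p : OmegaStar) (U : Set OmegaStar) (hU : U ∈ 𝓝 p) :
    ∃ s ∈ p.1, star s ⊆ U := by
  rw [nhds_subtype_eq_comap, mem_comap] at hU
  obtain ⟨V, hV, hVU⟩ := hU
  obtain ⟨_, ⟨s, rfl⟩, hs, hsV⟩ := ultrafilterBasis_is_basis.mem_nhds_iff.1 hV
  exact ⟨s, hs, fun u hu => hVU (hsV hu)⟩

/-- the ultrafilter generated by a tail of an injective sequence -/
theorem exists_omegaStar (x : ℕ → ℕ) (hx : Function.Injective x) :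
    ∃ u : OmegaStar, ∀ s : Set ℕ, (∀ᶠ n in atTop, x n ∈ s) → s ∈ u.1 := by
  refine ⟨⟨(hyperfilter ℕ).map x, ?_⟩, ?_⟩
  · rintro ⟨n, hn⟩
    have h1 : ({n} : Set ℕ) ∈ (hyperfilter ℕ).map x := by
      rw [← hn]
      exact Ultrafilter.mem_pure.2 rfl
    have h2 : x ⁻¹' {n} ∈ hyperfilter ℕ := h1
    exact notMem_hyperfilter_of_finite
      ((finite_singleton n).preimage hx.injOn) h2
  · intro s hs
    have h1 : x ⁻¹' s ∈ (atTop : Filter ℕ) := hs
    rw [← Nat.cofinite_eq_atTop] at h1
    exact hyperfilter_le_cofinite h1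

/-- every nonempty `G_δ` in `ω*` has at least two points -/
theorem exists_two (p : OmegaStar) (s : ℕ → Set ℕ) (hs : ∀ n, s n ∈ p.1) :
    ∃ q₁ q₂ : OmegaStar, q₁ ≠ q₂ ∧ (∀ n, s n ∈ q₁.1) ∧ (∀ n, s n ∈ q₂.1) := by
  -- decreasing intersections
  have hB : ∀ n, (⋂ i ∈ Finset.range (n + 1), s i) ∈ p.1 := by
    intro n
    exact (Filter.biInter_finset_mem _).2 fun i _ => hs i
  have hinf : ∀ n, (⋂ i ∈ Finset.range (n + 1), s i).Infinite := by
    intro n hfin
    have h1 : (⋂ i ∈ Finset.range (n + 1), s i)ᶜ ∈ (p.1 : Filter ℕ) :=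
      le_cofinite p hfin.compl_mem_cofinite
    have h2 := Filter.inter_mem (hB n) h1
    rw [inter_compl_self] at h2
    exact Ultrafilter.empty_notMem h2
  obtain ⟨x, hxmono, hx⟩ : ∃ x : ℕ → ℕ, StrictMono x ∧
      ∀ n, x n ∈ ⋂ i ∈ Finset.range (n + 1), s i := by
    have := Filter.extraction_forall_of_frequently
      (P := fun n k => k ∈ ⋂ i ∈ Finset.range (n + 1), s i)
      (fun n => Nat.frequently_atTop_iff_infinite.2 (hinf n))
    obtain ⟨φ, hφ, h⟩ := this
    exact ⟨φ, hφ, h⟩
  have hxs : ∀ n k, n ≤ k → x k ∈ s n := by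
    intro n k hnk
    have := hx k
    simp only [mem_iInter] at this
    exact this n (Finset.mem_range.2 (by omega))
  obtain ⟨q₁, h₁⟩ := exists_omegaStar (fun n => x (2 * n))
    (fun a b h => by have := hxmono.injective h; omega)
  obtain ⟨q₂, h₂⟩ := exists_omegaStar (fun n => x (2 * n + 1))
    (fun a b h => by have := hxmono.injective h; omega)
  refine ⟨q₁, q₂, ?_, ?_, ?_⟩
  · intro h
    have a1 : range (fun n => x (2 * n)) ∈ q₁.1 := h₁ _ (Eventually.of_forall fun n => ⟨n, rfl⟩)
    have a2 : (range (fun n => x (2 * n)))ᶜ ∈ q₂.1 := by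
      apply h₂
      refine Eventually.of_forall fun n => ?_
      rintro ⟨m, hm⟩
      have := hxmono.injective hm
      omega
    rw [← h] at a2
    have a3 := Filter.inter_mem a1 a2
    rw [inter_compl_self] at a3
    exact Ultrafilter.empty_notMem a3
  · intro n
    apply h₁
    filter_upwards [eventually_ge_atTop n] with k hk
    exact hxs n _ (by omega)
  · intro n
    apply h₂
    filter_upwards [eventually_ge_atTop n] with k hk
    exact hxs n _ (by omega)

theorem t35 : T35Space C(OmegaStar, OmegaStar) := by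
  letI : UniformSpace OmegaStar := uniformSpaceOfCompactR1
  haveI : CompletelyRegularSpace C(OmegaStar, OmegaStar) := inferInstance
  haveI : T1Space C(OmegaStar, OmegaStar) := inferInstance
  exact {}

/-- the map sending `A*` to `q₁` and its complement to `q₂` -/
noncomputable def gmap (q₁ q₂ : OmegaStar) (A : Set ℕ) : C(OmegaStar, OmegaStar) where
  toFun := by
    classical
    exact fun x => if x ∈ star A then q₁ else q₂
  continuous_toFun := by
    classical
    refine Continuous.if ?_ continuous_const continuous_const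
    intro a ha
    have h := (isClopen_star A).frontier_eq
    have : a ∈ frontier (star A) := ha
    rw [h] at this
    exact absurd this (notMem_empty _)

theorem gmap_of_mem (q₁ q₂ : OmegaStar) (A : Set ℕ) {x : OmegaStar} (hx : A ∈ x.1) :
    gmap q₁ q₂ A x = q₁ := by
  classical
  exact if_pos hx

theorem gmap_of_notMem (q₁ q₂ : OmegaStar) (A : Set ℕ) {x : OmegaStar} (hx : A ∉ x.1) :
    gmap q₁ q₂ A x = q₂ := by
  classical
  exact if_neg hx

theorem not_isCompact_two (q₁ q₂ : OmegaStar) (hq : q₁ ≠ q₂) :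
    ¬ IsCompact {g : C(OmegaStar, OmegaStar) | ∀ x, g x = q₁ ∨ g x = q₂} := by
  intro hc
  set L : Set C(OmegaStar, OmegaStar) := {g | ∀ x, g x = q₁ ∨ g x = q₂} with hL
  -- separate q₁ from q₂
  obtain ⟨s, hs1, hs2⟩ : ∃ s : Set ℕ, s ∈ q₁.1 ∧ s ∉ q₂.1 := by
    by_contra h
    push Not at h
    apply hq
    apply Subtype.ext
    apply Ultrafilter.coe_injective
    have h1 : (q₂.1 : Filter ℕ) ≤ q₁.1 := fun s hs => h s hs
    exact (Ultrafilter.coe_le_coe.1 h1 ▸ rfl)
  have hdisc : DiscreteTopology L := by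
    rw [discreteTopology_iff_isOpen_singleton]
    rintro ⟨g, hg⟩
    have hcl : IsClopen (g ⁻¹' star s) := (isClopen_star s).preimage g.continuous
    have hO : IsOpen ({h : C(OmegaStar, OmegaStar) | MapsTo h (g ⁻¹' star s) (star s)} ∩
        {h : C(OmegaStar, OmegaStar) | MapsTo h (g ⁻¹' star s)ᶜ (star s)ᶜ}) := by
      apply IsOpen.inter
      · exact ContinuousMap.isOpen_setOfPred_mapsTo hcl.isClosed.isCompact (isClopen_star s).isOpen
      · exact ContinuousMap.isOpen_setOfPred_mapsTo hcl.compl.isClosed.isCompact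
          (isClopen_star s).compl.isOpen
    have heq : ({⟨g, hg⟩} : Set L) = Subtype.val ⁻¹'
        ({h : C(OmegaStar, OmegaStar) | MapsTo h (g ⁻¹' star s) (star s)} ∩
        {h : C(OmegaStar, OmegaStar) | MapsTo h (g ⁻¹' star s)ᶜ (star s)ᶜ}) := by
      ext ⟨h, hh⟩
      simp only [mem_singleton_iff, mem_preimage, mem_inter_iff, Set.mem_ofPred_eq]
      constructor
      · intro h1
        have h2 : h = g := congrArg Subtype.val h1
        subst h2
        exact ⟨fun x hx => hx, fun x hx => hx⟩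
      · rintro ⟨h1, h2⟩
        apply Subtype.ext
        apply ContinuousMap.ext
        intro x
        show h x = g x
        have h1' : g x ∈ star s → h x ∈ star s := fun hx => h1 hx
        have h2' : g x ∉ star s → h x ∉ star s := fun hx => h2 hx
        have e1 : q₁ ∈ star s := hs1
        have e2 : q₂ ∉ star s := hs2
        rcases hg x with h3 | h3 <;> rcases hh x with h4 | h4
        · rw [h3, h4]
        · exfalso
          rw [h3, h4] at h1'
          exact e2 (h1' e1)
        · exfalso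
          rw [h3, h4] at h2'
          exact h2' e2 e1
        · rw [h3, h4]
    rw [heq]
    exact hO.preimage continuous_subtype_val
  have hfin : L.Finite := hc.finite (isDiscrete_iff_discreteTopology.2 hdisc)
  -- infinitely many elements
  let A : ℕ → Set ℕ := fun n => range fun k => Nat.pair n k
  have hinj : Function.Injective fun n => gmap q₁ q₂ (A n) := by
    intro m n hmn
    by_contra hne
    obtain ⟨u, hu⟩ := exists_omegaStar (fun k => Nat.pair m k)
      (fun a b h => (Nat.pair_eq_pair.1 h).2)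
    have h1 : A m ∈ u.1 := hu _ (Eventually.of_forall fun k => ⟨k, rfl⟩)
    have h2 : A n ∉ u.1 := by
      intro h3
      have h4 : (A n)ᶜ ∈ u.1 := by
        apply hu
        refine Eventually.of_forall fun k => ?_
        rintro ⟨j, hj⟩
        exact hne (Nat.pair_eq_pair.1 hj).1.symm
      have h5 := Filter.inter_mem h3 h4
      rw [inter_compl_self] at h5
      exact Ultrafilter.empty_notMem h5
    have h6 := congrArg (fun g : C(OmegaStar, OmegaStar) => g u) hmn
    simp only at h6
    rw [gmap_of_mem _ _ _ h1, gmap_of_notMem _ _ _ h2] at h6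
    exact hq h6
  have hsub : range (fun n => gmap q₁ q₂ (A n)) ⊆ L := by
    rintro _ ⟨n, rfl⟩ x
    by_cases hx : A n ∈ x.1
    · exact Or.inl (gmap_of_mem _ _ _ hx)
    · exact Or.inr (gmap_of_notMem _ _ _ hx)
  exact (infinite_range_of_injective hinj) (hfin.subset hsub)

theorem not_isGδ : ¬ IsGδ (range
    (stoneCechUnit : C(OmegaStar, OmegaStar) → StoneCech C(OmegaStar, OmegaStar))) := by
  intro hG
  haveI := t35
  obtain ⟨W, hW, hWeq⟩ := hG.eq_iInter_nat
  obtain ⟨p, -⟩ := exists_omegaStar id Function.injective_id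
  set c : C(OmegaStar, OmegaStar) := ContinuousMap.const _ p with hc
  have h1 : ∀ n, ∃ F : Set (StoneCech C(OmegaStar, OmegaStar)),
      F ∈ 𝓝 (stoneCechUnit c) ∧ IsClosed F ∧ F ⊆ W n := by
    intro n
    have h2 : W n ∈ 𝓝 (stoneCechUnit c) := by
      apply (hW n).mem_nhds
      have : stoneCechUnit c ∈ range
        (stoneCechUnit : C(OmegaStar, OmegaStar) → StoneCech C(OmegaStar, OmegaStar)) := ⟨c, rfl⟩
      rw [hWeq] at this
      exact mem_iInter.1 this n
    obtain ⟨F, hF, hF2⟩ := exists_mem_nhds_isClosed_subset h2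
    exact ⟨F, hF, hF2.1, hF2.2⟩
  choose F hFn hFc hFW using h1
  have h3 : ∀ n, ∃ s : Set ℕ, s ∈ p.1 ∧
      {g : C(OmegaStar, OmegaStar) | ∀ x, g x ∈ star s} ⊆ stoneCechUnit ⁻¹' F n := by
    intro n
    have h4 : stoneCechUnit ⁻¹' F n ∈ 𝓝 c := continuous_stoneCechUnit.continuousAt (hFn n)
    have hb := (basis_sets (𝓝 p)).nhds_continuousMapConst (X := OmegaStar)
    obtain ⟨⟨K, U⟩, ⟨-, hU⟩, hsub⟩ := hb.mem_iff.1 h4
    obtain ⟨s, hs, hsU⟩ := exists_star_subset p U hU
    exact ⟨s, hs, fun g hg => hsub fun x _ => hsU (hg x)⟩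
  choose s hs hsF using h3
  obtain ⟨q₁, q₂, hq, hq1, hq2⟩ := exists_two p s hs
  apply not_isCompact_two q₁ q₂ hq
  have hK : IsCompact (stoneCechUnit ⁻¹' (⋂ n, F n) : Set C(OmegaStar, OmegaStar)) := by
    have hsub : (⋂ n, F n) ⊆ range
        (stoneCechUnit : C(OmegaStar, OmegaStar) → StoneCech C(OmegaStar, OmegaStar)) := by
      rw [hWeq]
      exact iInter_mono hFW
    rw [isEmbedding_stoneCechUnit.isInducing.isCompact_preimage_iff hsub]
    exact (isClosed_iInter hFc).isCompact
  refine hK.of_isClosed_subset ?_ ?_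
  · have : {g : C(OmegaStar, OmegaStar) | ∀ x, g x = q₁ ∨ g x = q₂} =
        ⋂ x, {g : C(OmegaStar, OmegaStar) | g x ∈ ({q₁, q₂} : Set OmegaStar)} := by
      ext g
      simp
    rw [this]
    refine isClosed_iInter fun x => ?_
    exact ((Set.toFinite _).isClosed).preimage (ContinuousEvalConst.continuous_eval_const x)
  · intro g hg
    show stoneCechUnit g ∈ ⋂ n, F n
    refine mem_iInter.2 fun n => hsF n ?_
    intro x
    rcases hg x with h | h
    · rw [h]
      exact hq1 n
    · rw [h]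
      exact hq2 n

/-- **MP_7e6923_gt, Q2.** The (Tychonoff) space `C_k(ω*, ω*)` is not Čech-complete. -/
theorem result : T35Space C(OmegaStar, OmegaStar) ∧ ¬ CechComplete C(OmegaStar, OmegaStar) :=
  ⟨t35, fun h => not_isGδ h.2⟩

end Pool.Agent.Results.MP_7e6923_gt.NotCechComplete
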